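import Pool.Agent.helper7.DF.Spec2

/-!
# df:MSQ: the lower bound of the exponential sums at fractions with squarefree denominator
-/

set_option autoImplicit false

open Finset

namespace Pool.Agent.DFO

open Pool.Agent.helper85.BVP (ex)

/-- the exponential sum has period one -/
theorem MSQ_per (E : Finset ℕ) (α : ℝ) (m : ℕ) : SE E (α + m) = SE E α := by
  unfold SE
  refine Finset.sum_congr rfl fun n _ => ?_
  have h : (n : ℝ) * (α + m) = (n : ℝ) * α + ((n * m : ℕ) : ℤ) := by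
    push_cast
    ring
  rw [h, Pool.Agent.helper85.BVP.ex_add, Pool.Agent.helper85.BVP.ex_int, mul_one]

/-- reduction of the numerator -/
theorem MSQ_mod (E : Finset ℕ) (α : ℝ) (x m : ℕ) (hm : 0 < m) :
    SE E (α + (x : ℝ) / m) = SE E (α + ((x % m : ℕ) : ℝ) / m) := by
  have hm' : (m : ℝ) ≠ 0 := by positivity
  have h : (x : ℝ) = ((x % m : ℕ) : ℝ) + m * ((x / m : ℕ) : ℝ) := by
    have := Nat.mod_add_div x m
    exact_mod_cast this.symm
  have h2 : α + (x : ℝ) / m = α + ((x % m : ℕ) : ℝ) / m + ((x / m : ℕ) : ℝ) := by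
    generalize ((x % m : ℕ) : ℝ) = u at h ⊢
    generalize ((x / m : ℕ) : ℝ) = v at h ⊢
    rw [h]
    field_simp
    ring
  rw [h2, MSQ_per]

/-- the pairs inject into the reduced residues -/
theorem MSQ_inj (p q : ℕ) (hp : p.Prime) (hq : 0 < q) (hpq : Nat.Coprime p q) (G : ℕ → ℝ) (hG : ∀ x, 0 ≤ G x)
    (hG2 : ∀ x, G x = G (x % (p * q))) :
    ∑ a ∈ (range q).filter (fun a => Nat.Coprime a q), ∑ b ∈ Ioo 0 p, G (a * p + b * q) ≤
      ∑ c ∈ (range (p * q)).filter (fun c => Nat.Coprime c (p * q)), G c := by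
  have hm : 0 < p * q := Nat.mul_pos hp.pos hq
  rw [← Finset.sum_product']
  have h1 : ∀ x ∈ ((range q).filter (fun a => Nat.Coprime a q)) ×ˢ (Ioo 0 p),
      G (x.1 * p + x.2 * q) = G ((fun x : ℕ × ℕ => (x.1 * p + x.2 * q) % (p * q)) x) := by
    intro x _
    exact hG2 _
  rw [Finset.sum_congr rfl h1]
  rw [← Finset.sum_image (s := ((range q).filter (fun a => Nat.Coprime a q)) ×ˢ (Ioo 0 p))
    (g := fun x : ℕ × ℕ => (x.1 * p + x.2 * q) % (p * q)) (f := G)]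
  · refine Finset.sum_le_sum_of_subset_of_nonneg ?_ (fun x _ _ => hG x)
    intro c hc
    obtain ⟨x, hx, rfl⟩ := Finset.mem_image.1 hc
    rw [Finset.mem_product, Finset.mem_filter, Finset.mem_range, Finset.mem_Ioo] at hx
    obtain ⟨⟨hx1, hx2⟩, hx3, hx4⟩ := hx
    rw [Finset.mem_filter, Finset.mem_range]
    refine ⟨Nat.mod_lt _ hm, ?_⟩
    have hbp : Nat.Coprime x.2 p := ((Nat.Prime.coprime_iff_not_dvd hp).2 (Nat.not_dvd_of_pos_of_lt hx3 hx4)).symm
    have e1 : Nat.Coprime (x.1 * p + x.2 * q) p := by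
      rw [add_comm, Nat.coprime_add_mul_right_left]
      exact Nat.Coprime.mul_left hbp hpq.symm
    have e2 : Nat.Coprime (x.1 * p + x.2 * q) q := by
      rw [Nat.coprime_add_mul_right_left]
      exact Nat.Coprime.mul_left hx2 hpq
    have e3 : Nat.Coprime (x.1 * p + x.2 * q) (p * q) := Nat.Coprime.mul_right e1 e2
    have e4 : Nat.gcd (p * q) (x.1 * p + x.2 * q) = 1 := e3.symm
    rw [Nat.gcd_rec] at e4
    exact e4
  · intro x hx y hy hxy
    rw [Finset.mem_coe, Finset.mem_product, Finset.mem_filter, Finset.mem_range, Finset.mem_Ioo] at hx hy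
    obtain ⟨⟨hx1, hx2⟩, hx3, hx4⟩ := hx
    obtain ⟨⟨hy1, hy2⟩, hy3, hy4⟩ := hy
    have hmod : (x.1 * p + x.2 * q) ≡ (y.1 * p + y.2 * q) [MOD p * q] := hxy
    have m1 : (x.1 * p + x.2 * q) ≡ (y.1 * p + y.2 * q) [MOD p] := Nat.ModEq.of_mul_right q hmod
    have m2 : (x.1 * p + x.2 * q) ≡ (y.1 * p + y.2 * q) [MOD q] := Nat.ModEq.of_mul_left p hmod
    have m3 : x.2 * q ≡ y.2 * q [MOD p] := by
      have z1 : x.1 * p ≡ 0 [MOD p] := (Nat.modEq_zero_iff_dvd.2 (Dvd.intro_left _ rfl))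
      have z2 : y.1 * p ≡ 0 [MOD p] := (Nat.modEq_zero_iff_dvd.2 (Dvd.intro_left _ rfl))
      have z3 : x.1 * p ≡ y.1 * p [MOD p] := z1.trans z2.symm
      exact Nat.ModEq.add_left_cancel z3 m1
    have m4 : x.1 * p ≡ y.1 * p [MOD q] := by
      have z1 : x.2 * q ≡ 0 [MOD q] := (Nat.modEq_zero_iff_dvd.2 (Dvd.intro_left _ rfl))
      have z2 : y.2 * q ≡ 0 [MOD q] := (Nat.modEq_zero_iff_dvd.2 (Dvd.intro_left _ rfl))
      have z3 : x.2 * q ≡ y.2 * q [MOD q] := z1.trans z2.symm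
      exact Nat.ModEq.add_right_cancel z3 m2
    have m5 : x.2 ≡ y.2 [MOD p] := Nat.ModEq.cancel_right_of_coprime hpq m3
    have m6 : x.1 ≡ y.1 [MOD q] := Nat.ModEq.cancel_right_of_coprime hpq.symm m4
    exact Prod.ext (Nat.ModEq.eq_of_lt_of_lt m6 hx1 hy1) (Nat.ModEq.eq_of_lt_of_lt m5 hx4 hy4)

theorem MSQ (hMSP : MSP_stmt) : MSQ_stmt := by
  intro T E
  induction T using Finset.induction_on with
  | empty =>
    intro _ α
    simp
  | insert p T hpT ih =>
    intro hT α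
    obtain ⟨hp, hpE⟩ := hT p (Finset.mem_insert_self p T)
    have hT' : ∀ r ∈ T, r.Prime ∧ 3 * #(E.image (fun n => n % r)) ≤ 2 * r :=
      fun r hr => hT r (Finset.mem_insert_of_mem hr)
    obtain ⟨q, hq⟩ : ∃ q : ℕ, q = ∏ r ∈ T, r := ⟨_, rfl⟩
    have hq0 : 0 < q := by
      rw [hq]
      exact Finset.prod_pos fun r hr => (hT' r hr).1.pos
    have hpq : Nat.Coprime p q := by
      rw [hq]
      refine Nat.Coprime.prod_right fun r hr => ?_
      rw [Nat.coprime_primes hp (hT' r hr).1]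
      rintro rfl
      exact hpT hr
    have h1 := ih hT' α
    rw [← hq] at h1
    rw [Finset.prod_insert hpT, Finset.card_insert_of_notMem hpT, ← hq]
    have hq0' : (q : ℝ) ≠ 0 := by positivity
    have hp0' : (p : ℝ) ≠ 0 := by
      have := hp.pos
      positivity
    have h2 : ∑ a ∈ (range q).filter (fun a => Nat.Coprime a q), ‖SE E (α + (a : ℝ) / (q : ℝ))‖ ^ 2 ≤
        2 * ∑ a ∈ (range q).filter (fun a => Nat.Coprime a q), ∑ b ∈ Ioo 0 p,
          ‖SE E (α + ((a * p + b * q : ℕ) : ℝ) / ((p * q : ℕ) : ℝ))‖ ^ 2 := by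
      rw [Finset.mul_sum]
      refine Finset.sum_le_sum fun a _ => ?_
      refine (hMSP p E hp hpE (α + (a : ℝ) / (q : ℝ))).trans (le_of_eq ?_)
      congr 1
      refine Finset.sum_congr rfl fun b _ => ?_
      have e : α + (a : ℝ) / (q : ℝ) + (b : ℝ) / p = α + ((a * p + b * q : ℕ) : ℝ) / ((p * q : ℕ) : ℝ) := by
        push_cast
        field_simp
        ring
      rw [e]
    have h3 := MSQ_inj p q hp hq0 hpq (fun x => ‖SE E (α + (x : ℝ) / ((p * q : ℕ) : ℝ))‖ ^ 2) (fun x => by positivity)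
      (fun x => by
        show ‖SE E (α + (x : ℝ) / ((p * q : ℕ) : ℝ))‖ ^ 2 =
          ‖SE E (α + ((x % (p * q) : ℕ) : ℝ) / ((p * q : ℕ) : ℝ))‖ ^ 2
        rw [MSQ_mod E α x (p * q) (Nat.mul_pos hp.pos hq0)])
    have h4 : (0 : ℝ) < 2 ^ #T := by positivity
    calc ‖SE E α‖ ^ 2 ≤ 2 ^ #T * ∑ a ∈ (range q).filter (fun a => Nat.Coprime a q), ‖SE E (α + (a : ℝ) / (q : ℝ))‖ ^ 2 := h1
      _ ≤ 2 ^ #T * (2 * ∑ c ∈ (range (p * q)).filter (fun c => Nat.Coprime c (p * q)),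
          ‖SE E (α + (c : ℝ) / ((p * q : ℕ) : ℝ))‖ ^ 2) := by
        refine mul_le_mul_of_nonneg_left (h2.trans ?_) h4.le
        exact mul_le_mul_of_nonneg_left h3 (by norm_num)
      _ = 2 ^ (#T + 1) * ∑ c ∈ (range (p * q)).filter (fun c => Nat.Coprime c (p * q)),
          ‖SE E (α + (c : ℝ) / ((p * q : ℕ) : ℝ))‖ ^ 2 := by
        rw [pow_succ]
        ring

end Pool.Agent.DFO
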